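import Mathlib

/-!
Packings of unit balls, their touching graphs and the number `ballChi n`.
-/

set_option autoImplicit false

namespace Pool.Agent.H799K

/-- `P` is the set of centres of a finite packing of closed unit balls in `ℝ^n`: distinct centres
are at distance at least two (equivalently, the open balls are pairwise disjoint). -/
def IsPacking {n : ℕ} (P : Finset (EuclideanSpace ℝ (Fin n))) : Prop :=
  ∀ x ∈ P, ∀ y ∈ P, x ≠ y → 2 ≤ dist x y

/-- The touching graph: two balls are adjacent when their centres are at distance exactly two. -/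
def touchingGraph {n : ℕ} (P : Finset (EuclideanSpace ℝ (Fin n))) : SimpleGraph P where
  Adj x y := dist (x : EuclideanSpace ℝ (Fin n)) (y : EuclideanSpace ℝ (Fin n)) = 2
  symm := ⟨by intro x y h; rw [dist_comm]; exact h⟩
  loopless := ⟨by intro x h; rw [dist_self] at h; norm_num at h⟩

/-- The supremum of the chromatic numbers of the touching graphs of all packings in `ℝ^n`. -/
noncomputable def ballChi (n : ℕ) : ℕ∞ :=
  ⨆ P : {P : Finset (EuclideanSpace ℝ (Fin n)) // IsPacking P}, (touchingGraph P.1).chromaticNumber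

theorem ceil_le_ballChi {n : ℕ} (P : Finset (EuclideanSpace ℝ (Fin n))) (hP : IsPacking P) (a : ℝ)
    (ha : 0 < a)
    (hT : ∀ T ⊆ P, (∀ x ∈ T, ∀ y ∈ T, dist x y ≠ 2) → (T.card : ℝ) ≤ a) (r : ℝ)
    (hr : r * a ≤ P.card) : ((⌈r⌉₊ : ℕ) : ℕ∞) ≤ ballChi n := by
  classical
  refine le_trans ?_ (le_iSup (fun P : {P : Finset (EuclideanSpace ℝ (Fin n)) // IsPacking P} =>
    (touchingGraph P.1).chromaticNumber) ⟨P, hP⟩)
  rw [SimpleGraph.le_chromaticNumber_iff_colorable]
  rintro k ⟨C⟩
  rw [Nat.ceil_le]
  let A : Fin k → Finset {x // x ∈ P} := fun c => Finset.univ.filter fun x => C x = c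
  have hcard : P.card = ∑ c : Fin k, (A c).card := by
    have h1 : (Finset.univ : Finset {x // x ∈ P}).card = ∑ c : Fin k, (A c).card :=
      Finset.card_eq_sum_card_fiberwise (fun _ _ => Finset.mem_coe.mpr (Finset.mem_univ _))
    rw [← h1, Finset.card_univ, Fintype.card_coe]
  have hA : ∀ c, ((A c).card : ℝ) ≤ a := by
    intro c
    have h1 := hT ((A c).map (Function.Embedding.subtype _)) (by
      intro x hx
      rw [Finset.mem_map] at hx
      obtain ⟨y, _, rfl⟩ := hx
      exact y.2) (by
      intro x hx y hy hxy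
      rw [Finset.mem_map] at hx hy
      obtain ⟨x', hx', rfl⟩ := hx
      obtain ⟨y', hy', rfl⟩ := hy
      simp only [A, Finset.mem_filter, Finset.mem_univ, true_and] at hx' hy'
      have hadj : (touchingGraph P).Adj x' y' := hxy
      exact C.valid hadj (hx'.trans hy'.symm))
    rwa [Finset.card_map] at h1
  have h2 : (P.card : ℝ) ≤ k * a := by
    rw [hcard]
    push_cast
    calc ∑ c : Fin k, ((A c).card : ℝ) ≤ ∑ _c : Fin k, a := Finset.sum_le_sum fun c _ => hA c
      _ = k * a := by rw [Finset.sum_const, Finset.card_univ, Fintype.card_fin, nsmul_eq_mul]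
  exact le_of_mul_le_mul_right (hr.trans h2) ha

end Pool.Agent.H799K
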