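import Mathlib

/-!
Trace facts over `ZMod 2` and quadratic refinements of alternating forms.
-/

set_option autoImplicit false

open Finset

namespace Pool.Agent.H799K

lemma zmod2_add_self (x : ZMod 2) : x + x = 0 := by
  revert x; decide

lemma zmod2_mul_self (x : ZMod 2) : x * x = x := by
  revert x; decide

section Quad

variable {V : Type*} [AddCommGroup V] [Module (ZMod 2) V] [Module.Finite (ZMod 2) V]

/-- Every alternating bilinear form over `ZMod 2` is the polar form of a quadratic function. -/
theorem exists_quad (A : V →ₗ[ZMod 2] V →ₗ[ZMod 2] ZMod 2) (hA : ∀ x, A x x = 0) :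
    ∃ Q : V → ZMod 2, ∀ x y, Q (x + y) = Q x + Q y + A x y := by
  classical
  have hsymm : ∀ x y, A x y = A y x := by
    intro x y
    have h := hA (x + y)
    simp only [map_add, LinearMap.add_apply, hA, zero_add, add_zero] at h
    -- h : A y x + A x y = 0 (in some order)
    have h2 := zmod2_add_self (A y x)
    have h3 : A x y + A y x = 0 := by
      first
        | exact h
        | (rw [add_comm]; exact h)
    calc A x y = A x y + (A y x + A y x) := by rw [h2, add_zero]
      _ = (A x y + A y x) + A y x := by ring
      _ = A y x := by rw [h3, zero_add]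
  let b := Module.finBasis (ZMod 2) V
  let C : V → V → ZMod 2 := fun x y => ∑ i, ∑ j, if i < j then b.repr x i * b.repr y j * A (b i) (b j) else 0
  have hCadd : ∀ x y, C x y + C y x = A x y := by
    intro x y
    have hsw : C y x = ∑ i, ∑ j, if j < i then b.repr x i * b.repr y j * A (b i) (b j) else 0 := by
      show (∑ i, ∑ j, if i < j then b.repr y i * b.repr x j * A (b i) (b j) else 0) = _
      rw [Finset.sum_comm]
      refine Finset.sum_congr rfl fun i _ => Finset.sum_congr rfl fun j _ => ?_
      split_ifs
      · rw [hsymm (b j) (b i)]; ring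
      · rfl
    have hexp : A x y = ∑ i, ∑ j, b.repr x i * b.repr y j * A (b i) (b j) := by
      conv_lhs => rw [← b.sum_repr x, ← b.sum_repr y]
      simp only [map_sum, LinearMap.sum_apply, map_smul, LinearMap.smul_apply, smul_eq_mul]
      simp only [Finset.mul_sum]
      rw [Finset.sum_comm]
      refine Finset.sum_congr rfl fun i _ => Finset.sum_congr rfl fun j _ => ?_
      ring
    rw [hsw, hexp]
    show (∑ i, ∑ j, if i < j then b.repr x i * b.repr y j * A (b i) (b j) else 0) + _ = _
    rw [← Finset.sum_add_distrib]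
    refine Finset.sum_congr rfl fun i _ => ?_
    rw [← Finset.sum_add_distrib]
    refine Finset.sum_congr rfl fun j _ => ?_
    rcases lt_trichotomy i j with h | h | h
    · simp [h, not_lt.mpr h.le]
    · subst h
      simp [hA]
    · simp [h, not_lt.mpr h.le]
  have hCl : ∀ x y z, C (x + y) z = C x z + C y z := by
    intro x y z
    show (∑ i, ∑ j, if i < j then b.repr (x + y) i * b.repr z j * A (b i) (b j) else 0) =
      (∑ i, ∑ j, if i < j then b.repr x i * b.repr z j * A (b i) (b j) else 0) +
      (∑ i, ∑ j, if i < j then b.repr y i * b.repr z j * A (b i) (b j) else 0)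
    rw [← Finset.sum_add_distrib]
    refine Finset.sum_congr rfl fun i _ => ?_
    rw [← Finset.sum_add_distrib]
    refine Finset.sum_congr rfl fun j _ => ?_
    split_ifs
    · simp only [map_add, Finsupp.add_apply]; ring
    · simp
  have hCr : ∀ x y z, C z (x + y) = C z x + C z y := by
    intro x y z
    show (∑ i, ∑ j, if i < j then b.repr z i * b.repr (x + y) j * A (b i) (b j) else 0) =
      (∑ i, ∑ j, if i < j then b.repr z i * b.repr x j * A (b i) (b j) else 0) +
      (∑ i, ∑ j, if i < j then b.repr z i * b.repr y j * A (b i) (b j) else 0)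
    rw [← Finset.sum_add_distrib]
    refine Finset.sum_congr rfl fun i _ => ?_
    rw [← Finset.sum_add_distrib]
    refine Finset.sum_congr rfl fun j _ => ?_
    split_ifs
    · simp only [map_add, Finsupp.add_apply]; ring
    · simp
  refine ⟨fun x => C x x, fun x y => ?_⟩
  show C (x + y) (x + y) = C x x + C y y + A x y
  rw [hCl, hCr, hCr, ← hCadd x y]
  ring

end Quad

section Trace

variable (F : Type*) [Field F] [Finite F] [Algebra (ZMod 2) F]

/-- The trace to `ZMod 2`. -/
noncomputable abbrev Tr : F →ₗ[ZMod 2] ZMod 2 := Algebra.trace (ZMod 2) F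

lemma Tr_nondeg (a : F) (h : ∀ x, Tr F (a * x) = 0) : a = 0 := by
  have htr := (traceForm_nondegenerate (ZMod 2) F).1 a
  simp_rw [Algebra.traceForm_apply] at htr
  exact htr h

lemma Tr_sq (x : F) : Tr F (x * x) = Tr F x := by
  have h := Algebra.trace_eq_of_algEquiv (FiniteField.frobeniusAlgEquivOfAlgebraic (ZMod 2) F) x
  rw [FiniteField.coe_frobeniusAlgEquivOfAlgebraic] at h
  simp only [ZMod.card] at h
  rw [← h, pow_two]

lemma Tr_algebraMap (hodd : Odd (Module.finrank (ZMod 2) F)) (s : ZMod 2) :
    Tr F (algebraMap (ZMod 2) F s) = s := by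
  rw [Tr, Algebra.trace_algebraMap]
  obtain ⟨r, hr⟩ := hodd
  rw [hr, add_smul, mul_smul, one_smul, two_smul, zmod2_add_self, zero_add]

/-- The alternating form `Tr(xy) + Tr(x)Tr(y)`. -/
noncomputable def altForm : F →ₗ[ZMod 2] F →ₗ[ZMod 2] ZMod 2 :=
  LinearMap.mk₂ (ZMod 2) (fun x y => Tr F (x * y) + Tr F x * Tr F y)
    (by intro x y z; simp only [add_mul, map_add]; ring)
    (by intro c x y; simp only [smul_mul_assoc, map_smul, smul_eq_mul]; ring)
    (by intro x y z; simp only [mul_add, map_add]; ring)
    (by intro c x y; simp only [mul_smul_comm, map_smul, smul_eq_mul]; ring)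

omit [Finite F] in
lemma altForm_apply (x y : F) : altForm F x y = Tr F (x * y) + Tr F x * Tr F y := rfl

lemma altForm_self (x : F) : altForm F x x = 0 := by
  rw [altForm_apply, Tr_sq, zmod2_mul_self, zmod2_add_self]

theorem exists_Q0 : ∃ Q : F → ZMod 2, ∀ x y,
    Q (x + y) = Q x + Q y + (Tr F (x * y) + Tr F x * Tr F y) :=
  exists_quad (altForm F) (altForm_self F)

end Trace

end Pool.Agent.H799K
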