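import Pool.Agent.H799K.Form

/-!
Sign sums of quadratic functions and the Kerdock-type family of sign vectors.
-/

set_option autoImplicit false

open Finset

namespace Pool.Agent.H799K

/-- The sign character of `ZMod 2`. -/
noncomputable def sg (x : ZMod 2) : ℝ := if x = 0 then 1 else -1

lemma zmod2_cases (x : ZMod 2) : x = 0 ∨ x = 1 := by
  revert x; decide

lemma sg_zero : sg 0 = 1 := by simp [sg]

lemma sg_one : sg 1 = -1 := by simp [sg]

lemma sg_add (x y : ZMod 2) : sg (x + y) = sg x * sg y := by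
  have h11 : (1 : ZMod 2) + 1 = 0 := by decide
  rcases zmod2_cases x with rfl | rfl <;> rcases zmod2_cases y with rfl | rfl <;>
    simp [sg_zero, sg_one, h11]

lemma sg_mul_self (x : ZMod 2) : sg x * sg x = 1 := by
  rw [← sg_add, zmod2_add_self, sg_zero]

section Sums

variable {V : Type*} [AddCommGroup V] [Fintype V]

lemma sum_sg_hom (L : V → ZMod 2) (hL : ∀ x y, L (x + y) = L x + L y) (z₀ : V) (hz : L z₀ ≠ 0) :
    ∑ z, sg (L z) = 0 := by
  have h1 : L z₀ = 1 := by
    rcases zmod2_cases (L z₀) with h | h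
    · exact absurd h hz
    · exact h
  have h2 : ∑ z, sg (L z) = ∑ z, sg (L (z + z₀)) :=
    (Equiv.sum_comp (Equiv.addRight z₀) (fun z => sg (L z))).symm
  have h3 : ∑ z, sg (L (z + z₀)) = - ∑ z, sg (L z) := by
    rw [← Finset.sum_neg_distrib]
    refine Finset.sum_congr rfl fun z _ => ?_
    rw [hL, sg_add, h1, sg_one]
    ring
  linarith

/-- The square of the sign sum of a quadratic function with nondegenerate polar form. -/
lemma sum_sg_quad_sq (f : V → ZMod 2) (D : V → V → ZMod 2)
    (hf : ∀ x y, f (x + y) = f x + f y + D x y)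
    (hD : ∀ x y z, D (x + y) z = D x z + D y z)
    (hnd : ∀ h, (∀ z, D z h = 0) → h = 0) :
    (∑ z, sg (f z)) ^ 2 = (Fintype.card V : ℝ) := by
  classical
  have hD0 : ∀ z, D 0 z = 0 := by
    intro z
    have h := hD 0 0 z
    rw [add_zero] at h
    have h2 := zmod2_add_self (D 0 z)
    rw [← h] at h2
    exact h2
  have hf0 : f 0 = 0 := by
    have h := hf 0 0
    rw [add_zero, zmod2_add_self, zero_add, hD0] at h
    exact h
  have e1 : (∑ z, sg (f z)) ^ 2 = ∑ z, ∑ h, sg (f z) * sg (f (z + h)) := by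
    rw [pow_two, Finset.sum_mul]
    refine Finset.sum_congr rfl fun z _ => ?_
    rw [← Finset.mul_sum]
    congr 1
    exact (Equiv.sum_comp (Equiv.addLeft z) (fun y => sg (f y))).symm
  rw [e1, Finset.sum_comm]
  have e2 : ∀ h : V, ∑ z, sg (f z) * sg (f (z + h)) = sg (f h) * ∑ z, sg (D z h) := by
    intro h
    rw [Finset.mul_sum]
    refine Finset.sum_congr rfl fun z _ => ?_
    rw [hf, sg_add, sg_add, ← mul_assoc, ← mul_assoc, sg_mul_self, one_mul]
  simp_rw [e2]
  rw [Finset.sum_eq_single (0 : V)]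
  · have h0 : ∀ z, D z 0 = 0 := by
      intro z
      have h := hf z 0
      rw [add_zero, hf0, add_zero] at h
      -- f z = f z + D z 0
      have h' : f z + f z = f z + (f z + D z 0) := congrArg (fun t => f z + t) h
      rw [← add_assoc, zmod2_add_self, zero_add] at h'
      exact h'.symm
    simp [hf0, h0, sg_zero]
  · intro h _ hh
    have : ∃ z, D z h ≠ 0 := by
      by_contra hcon
      push Not at hcon
      exact hh (hnd h hcon)
    obtain ⟨z₀, hz₀⟩ := this
    rw [sum_sg_hom (fun z => D z h) (fun x y => hD x y h) z₀ hz₀, mul_zero]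
  · intro h
    exact absurd (Finset.mem_univ _) h

end Sums

section Kerdock

set_option linter.unusedSectionVars false

variable (F : Type*) [Field F] [Fintype F] [Algebra (ZMod 2) F]

/-- The quadratic functions of the family. -/
noncomputable def qf (Q : F → ZMod 2) (a : F) (z : F × ZMod 2) : ZMod 2 :=
  Q (a * z.1) + z.2 * Tr F (a * z.1)

/-- The linear functions of the family. -/
noncomputable def lf (w : F × ZMod 2) (z : F × ZMod 2) : ZMod 2 :=
  Tr F (w.1 * z.1) + w.2 * z.2

/-- The polar forms. -/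
noncomputable def bf (a : F) (z z' : F × ZMod 2) : ZMod 2 :=
  Tr F ((a * z.1) * (a * z'.1)) + Tr F (a * z.1) * Tr F (a * z'.1)
    + z.2 * Tr F (a * z'.1) + z'.2 * Tr F (a * z.1)

/-- The sign vectors. -/
noncomputable def chi (Q : F → ZMod 2) (p : F × (F × ZMod 2)) (z : F × ZMod 2) : ℝ :=
  sg (qf F Q p.1 z + lf F p.2 z)

lemma lf_add (w z z' : F × ZMod 2) : lf F w (z + z') = lf F w z + lf F w z' := by
  simp only [lf, Prod.fst_add, Prod.snd_add, mul_add, map_add]; ring

lemma lf_add_left (w w' z : F × ZMod 2) : lf F (w + w') z = lf F w z + lf F w' z := by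
  simp only [lf, Prod.fst_add, Prod.snd_add, add_mul, map_add]; ring

lemma lf_nondeg (w : F × ZMod 2) (h : ∀ z, lf F w z = 0) : w = 0 := by
  have h1 : w.2 = 0 := by
    have := h (0, 1)
    simpa [lf] using this
  have h2 : w.1 = 0 := by
    refine Tr_nondeg F w.1 fun x => ?_
    have := h (x, 0)
    simpa [lf] using this
  exact Prod.ext h2 h1

lemma qf_add (Q : F → ZMod 2) (hQ : ∀ x y, Q (x + y) = Q x + Q y + (Tr F (x * y) + Tr F x * Tr F y))
    (a : F) (z z' : F × ZMod 2) :
    qf F Q a (z + z') = qf F Q a z + qf F Q a z' + bf F a z z' := by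
  simp only [qf, bf, Prod.fst_add, Prod.snd_add, mul_add, hQ, map_add]; ring

lemma bf_add_left (a : F) (x y z : F × ZMod 2) :
    bf F a (x + y) z = bf F a x z + bf F a y z := by
  simp only [bf, Prod.fst_add, Prod.snd_add, mul_add, add_mul, map_add]; ring

lemma charTwo_add_self (x : F) : x + x = 0 := by
  have h : x + x = (2 : ZMod 2) • x := by rw [two_smul]
  rw [h]
  have h2 : (2 : ZMod 2) = 0 := by decide
  rw [h2, zero_smul]

lemma bf_nondeg (hodd : Odd (Module.finrank (ZMod 2) F)) (a b : F) (hab : a ≠ b) (h : F × ZMod 2)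
    (hz : ∀ z, bf F a z h + bf F b z h = 0) : h = 0 := by
  obtain ⟨y, δ⟩ := h
  have h1 : Tr F (a * y) + Tr F (b * y) = 0 := by
    have := hz (0, 1)
    simpa [bf] using this
  have htt : Tr F (b * y) = Tr F (a * y) := by
    have h2 := zmod2_add_self (Tr F (b * y))
    calc Tr F (b * y) = (Tr F (a * y) + Tr F (b * y)) + Tr F (b * y) := by rw [h1, zero_add]
      _ = Tr F (a * y) + (Tr F (b * y) + Tr F (b * y)) := by ring
      _ = Tr F (a * y) := by rw [h2, add_zero]
  set t := Tr F (a * y) with ht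
  have h2 : (a + b) * (a + b) * y + algebraMap (ZMod 2) F (t + δ) * (a + b) = 0 := by
    refine Tr_nondeg F _ fun x => ?_
    have h3 := hz (x, 0)
    simp only [bf, zero_mul, add_zero, htt, ← ht] at h3
    have e1 : ((a + b) * (a + b) * y + algebraMap (ZMod 2) F (t + δ) * (a + b)) * x
        = (a * x) * (a * y) + (b * x) * (b * y) + (a * b * y * x + a * b * y * x)
          + ((t + δ) • (a * x) + (t + δ) • (b * x)) := by
      simp only [Algebra.smul_def]; ring
    rw [e1, charTwo_add_self, add_zero]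
    simp only [map_add, map_smul, smul_eq_mul]
    rw [← h3]
    ring
  have hne : a + b ≠ 0 := by
    intro h0
    apply hab
    calc a = a + (b + b) := by rw [charTwo_add_self, add_zero]
      _ = (a + b) + b := by ring
      _ = b := by rw [h0, zero_add]
  have h3 : (a + b) * y + algebraMap (ZMod 2) F (t + δ) = 0 := by
    have h4 : (a + b) * ((a + b) * y + algebraMap (ZMod 2) F (t + δ)) = 0 := by
      rw [← h2]; ring
    rcases mul_eq_zero.mp h4 with h5 | h5
    · exact absurd h5 hne
    · exact h5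
  have h4 : t + δ = 0 := by
    have h5 := congrArg (Tr F) h3
    rw [map_add, Tr_algebraMap F hodd, map_zero, add_mul, map_add, h1, zero_add] at h5
    exact h5
  rw [h4, map_zero, add_zero] at h3
  have hy : y = 0 := by
    rcases mul_eq_zero.mp h3 with h5 | h5
    · exact absurd h5 hne
    · exact h5
  subst hy
  have ht0 : t = 0 := by rw [ht, mul_zero, map_zero]
  rw [ht0, zero_add] at h4
  rw [h4]; rfl

/-- Inner products of the sign vectors. -/
theorem chi_self (Q : F → ZMod 2) (p : F × (F × ZMod 2)) :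
    ∑ z, chi F Q p z * chi F Q p z = (Fintype.card (F × ZMod 2) : ℝ) := by
  simp [chi, sg_mul_self]

theorem chi_same (Q : F → ZMod 2) (a : F) (w w' : F × ZMod 2) (hw : w ≠ w') :
    ∑ z, chi F Q (a, w) z * chi F Q (a, w') z = 0 := by
  have h1 : ∀ z, chi F Q (a, w) z * chi F Q (a, w') z = sg (lf F (w + w') z) := by
    intro z
    simp only [chi]
    rw [← sg_add, lf_add_left]
    congr 1
    have h2 := zmod2_add_self (qf F Q a z)
    calc qf F Q a z + lf F w z + (qf F Q a z + lf F w' z)
        = (qf F Q a z + qf F Q a z) + (lf F w z + lf F w' z) := by ring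
      _ = _ := by rw [h2, zero_add]
  simp_rw [h1]
  have hne : w + w' ≠ 0 := by
    intro h0
    apply hw
    have hw' : w' + w' = 0 := by
      ext
      · exact charTwo_add_self F w'.1
      · exact zmod2_add_self w'.2
    calc w = w + (w' + w') := by rw [hw', add_zero]
      _ = (w + w') + w' := by rw [add_assoc]
      _ = w' := by rw [h0, zero_add]
  have hex : ∃ z, lf F (w + w') z ≠ 0 := by
    by_contra hcon
    push Not at hcon
    exact hne (lf_nondeg F _ hcon)
  obtain ⟨z₀, hz₀⟩ := hex
  exact sum_sg_hom _ (lf_add F (w + w')) z₀ hz₀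

theorem chi_diff (hodd : Odd (Module.finrank (ZMod 2) F)) (Q : F → ZMod 2)
    (hQ : ∀ x y, Q (x + y) = Q x + Q y + (Tr F (x * y) + Tr F x * Tr F y))
    (a b : F) (hab : a ≠ b) (w w' : F × ZMod 2) :
    (∑ z, chi F Q (a, w) z * chi F Q (b, w') z) ^ 2 = (Fintype.card (F × ZMod 2) : ℝ) := by
  have h1 : ∀ z, chi F Q (a, w) z * chi F Q (b, w') z =
      sg (qf F Q a z + lf F w z + (qf F Q b z + lf F w' z)) := by
    intro z
    simp only [chi]
    rw [← sg_add]
  simp_rw [h1]
  refine sum_sg_quad_sq _ (fun z z' => bf F a z z' + bf F b z z') ?_ ?_ ?_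
  · intro x y
    rw [qf_add F Q hQ, qf_add F Q hQ, lf_add, lf_add]
    ring
  · intro x y z
    simp only [bf_add_left]
    ring
  · intro h hz
    exact bf_nondeg F hodd a b hab h hz

end Kerdock

end Pool.Agent.H799K
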