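import Pool.Agent.H799K.Kerdock

/-!
The points in Euclidean space and the counting bound.
-/

set_option autoImplicit false

open Finset

namespace Pool.Agent.H799K

section Points

variable (F : Type*) [Field F] [Fintype F] [DecidableEq F] [Algebra (ZMod 2) F]

/-- Coordinates of the points. -/
noncomputable def coords (Q : F → ZMod 2) (α β : ℝ) (p : F × (F × ZMod 2)) :
    (F × ZMod 2) ⊕ F → ℝ
  | Sum.inl z => chi F Q p z * α
  | Sum.inr b => if b = p.1 then β else 0

lemma coords_inner (Q : F → ZMod 2) (α β : ℝ) (p p' : F × (F × ZMod 2)) :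
    ∑ i, coords F Q α β p i * coords F Q α β p' i =
      (α * α) * (∑ z, chi F Q p z * chi F Q p' z) + if p.1 = p'.1 then β * β else 0 := by
  rw [Fintype.sum_sum_type]
  congr 1
  · rw [Finset.mul_sum]
    refine Finset.sum_congr rfl fun z _ => ?_
    simp only [coords]; ring
  · simp only [coords]
    split_ifs with h
    · rw [Finset.sum_eq_single p.1]
      · simp [h]
      · intro b _ hb; simp [hb]
      · intro h'; exact absurd (Finset.mem_univ _) h'
    · refine Finset.sum_eq_zero fun b _ => ?_
      by_cases hb : b = p.1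
      · have : b ≠ p'.1 := fun h' => h (hb.symm.trans h')
        simp [this]
      · simp [hb]

/-- The points in `ℝ^d`. -/
noncomputable def pt {d : ℕ} (e : ((F × ZMod 2) ⊕ F) ≃ Fin d) (Q : F → ZMod 2) (α β : ℝ)
    (p : F × (F × ZMod 2)) : EuclideanSpace ℝ (Fin d) :=
  WithLp.toLp 2 (fun i => coords F Q α β p (e.symm i))

lemma pt_inner {d : ℕ} (e : ((F × ZMod 2) ⊕ F) ≃ Fin d) (Q : F → ZMod 2) (α β : ℝ)
    (p p' : F × (F × ZMod 2)) :
    inner ℝ (pt F e Q α β p) (pt F e Q α β p') =
      (α * α) * (∑ z, chi F Q p z * chi F Q p' z) + if p.1 = p'.1 then β * β else 0 := by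
  rw [← coords_inner, PiLp.inner_apply]
  rw [← Equiv.sum_comp e.symm (fun i => coords F Q α β p i * coords F Q α β p' i)]
  refine Finset.sum_congr rfl fun i _ => ?_
  simp [pt, mul_comm]

end Points

/-- The abstract counting bound: in a family of vectors of squared norm `1/2 + 1/(2R)` with mutual
inner products `± 1/(2R)`, all distances are at least one and at most `R + 2` of them
are pairwise at distance more than one. -/
theorem family_bound {ι E : Type*} [NormedAddCommGroup E] [InnerProductSpace ℝ E] (P : ι → E) (R : ℝ)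
    (hR : 0 < R) (hself : ∀ i, inner ℝ (P i) (P i) = 1 / 2 + 1 / (2 * R))
    (hpair : ∀ i j, i ≠ j → inner ℝ (P i) (P j) = 1 / (2 * R) ∨ inner ℝ (P i) (P j) = - (1 / (2 * R))) :
    Function.Injective P ∧ (∀ i j, i ≠ j → 1 ≤ dist (P i) (P j)) ∧
    ∀ T : Finset ι, (∀ i ∈ T, ∀ j ∈ T, i ≠ j → 1 < dist (P i) (P j)) → (T.card : ℝ) ≤ R + 2 := by
  classical
  have hR2 : 0 < 1 / (2 * R) := by positivity
  have hdist : ∀ i j, dist (P i) (P j) ^ 2 = 1 + 1 / R - 2 * inner ℝ (P i) (P j) := by
    intro i j
    rw [dist_eq_norm, norm_sub_sq_real, ← real_inner_self_eq_norm_sq, ← real_inner_self_eq_norm_sq,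
      hself, hself]
    field_simp
    ring
  have hhalf : 1 / R = 2 * (1 / (2 * R)) := by field_simp
  have hge : ∀ i j, i ≠ j → 1 ≤ dist (P i) (P j) := by
    intro i j hij
    have h1 := hdist i j
    have h2 : 1 ≤ dist (P i) (P j) ^ 2 := by
      rcases hpair i j hij with h | h
      · rw [h1, h, hhalf]; linarith
      · rw [h1, h, hhalf]; linarith
    by_contra hcon
    push Not at hcon
    have h3 : 0 ≤ dist (P i) (P j) := dist_nonneg
    nlinarith
  refine ⟨?_, hge, ?_⟩
  · intro i j hij
    by_contra hne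
    have h := hge i j hne
    rw [hij, dist_self] at h
    linarith
  · intro T hT
    have hneg : ∀ i ∈ T, ∀ j ∈ T, i ≠ j → inner ℝ (P i) (P j) = - (1 / (2 * R)) := by
      intro i hi j hj hij
      rcases hpair i j hij with h | h
      · exfalso
        have h1 := hdist i j
        rw [h, hhalf] at h1
        have h2 := hT i hi j hj hij
        have h3 : dist (P i) (P j) ^ 2 = 1 := by rw [h1]; ring
        nlinarith
      · exact h
    rcases T.eq_empty_or_nonempty with h0 | hne
    · rw [h0, Finset.card_empty]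
      push_cast
      linarith
    · have hpos : 0 ≤ inner ℝ (∑ i ∈ T, P i) (∑ i ∈ T, P i) := real_inner_self_nonneg
      rw [sum_inner] at hpos
      have hin : ∀ i ∈ T, inner ℝ (P i) (∑ j ∈ T, P j) =
          1 / 2 + 1 / (2 * R) - ((T.card : ℝ) - 1) * (1 / (2 * R)) := by
        intro i hi
        rw [inner_sum, ← Finset.add_sum_erase T _ hi, hself]
        have : ∑ j ∈ T.erase i, inner ℝ (P i) (P j) = ∑ j ∈ T.erase i, - (1 / (2 * R)) := by
          refine Finset.sum_congr rfl fun j hj => ?_
          rw [Finset.mem_erase] at hj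
          exact hneg i hi j hj.2 (Ne.symm hj.1)
        rw [this, Finset.sum_const, Finset.card_erase_of_mem hi, nsmul_eq_mul]
        have hc : 1 ≤ T.card := Finset.card_pos.mpr hne
        push_cast [Nat.cast_sub hc]
        ring
      rw [Finset.sum_congr rfl hin, Finset.sum_const, nsmul_eq_mul] at hpos
      have hc : (0 : ℝ) < T.card := by exact_mod_cast Finset.card_pos.mpr hne
      have h5 : 0 ≤ 1 / 2 + 1 / (2 * R) - ((T.card : ℝ) - 1) * (1 / (2 * R)) := by
        by_contra hcon
        push Not at hcon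
        nlinarith
      have h6 : 1 / 2 + 1 / (2 * R) - ((T.card : ℝ) - 1) * (1 / (2 * R)) =
          (R + 2 - (T.card : ℝ)) * (1 / (2 * R)) := by
        field_simp
        ring
      rw [h6] at h5
      by_contra hcon
      push Not at hcon
      nlinarith

/-- The main construction: for each `j` there is a 1-separated set of `2 ^ (4 * j + 3)` points in
dimension `3 * 2 ^ (2 * j + 1)` in which no more than `2 ^ (j + 1) + 2` points are pairwise at
distance more than one. -/
theorem exists_set (j : ℕ) :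
    ∃ S : Finset (EuclideanSpace ℝ (Fin (3 * 2 ^ (2 * j + 1)))),
      S.card = 2 ^ (4 * j + 3) ∧ (∀ x ∈ S, ∀ y ∈ S, x ≠ y → 1 ≤ dist x y) ∧
      ∀ T ⊆ S, (∀ x ∈ T, ∀ y ∈ T, x ≠ y → 1 < dist x y) → (T.card : ℝ) ≤ 2 ^ (j + 1) + 2 := by
  classical
  let F := GaloisField 2 (2 * j + 1)
  have hm : 2 * j + 1 ≠ 0 := by omega
  have : Finite F := Nat.finite_of_card_ne_zero (by
    rw [GaloisField.card 2 (2 * j + 1) hm]; positivity)
  let _ : Fintype F := Fintype.ofFinite F
  have hcard : Fintype.card F = 2 ^ (2 * j + 1) := by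
    rw [← Nat.card_eq_fintype_card]
    exact GaloisField.card 2 (2 * j + 1) hm
  have hfin : Odd (Module.finrank (ZMod 2) F) := by
    have : Module.finrank (ZMod 2) F = 2 * j + 1 := GaloisField.finrank 2 hm
    rw [this]
    exact ⟨j, rfl⟩
  obtain ⟨Q, hQ⟩ := exists_Q0 F
  have hcV : Fintype.card (F × ZMod 2) = 2 ^ (2 * j + 2) := by
    rw [Fintype.card_prod, hcard, ZMod.card]
    ring
  set R : ℝ := 2 ^ (j + 1) with hRdef
  have hR : 0 < R := by positivity
  have hcVR : (Fintype.card (F × ZMod 2) : ℝ) = R * R := by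
    rw [hcV, hRdef]
    push_cast
    ring
  have hck : Fintype.card ((F × ZMod 2) ⊕ F) = 3 * 2 ^ (2 * j + 1) := by
    rw [Fintype.card_sum, hcV, hcard]
    ring
  let e : ((F × ZMod 2) ⊕ F) ≃ Fin (3 * 2 ^ (2 * j + 1)) := Fintype.equivFinOfCardEq hck
  let α : ℝ := Real.sqrt (1 / (2 * (R * R)))
  let β : ℝ := Real.sqrt (1 / (2 * R))
  have hα : α * α = 1 / (2 * (R * R)) := Real.mul_self_sqrt (by positivity)
  have hβ : β * β = 1 / (2 * R) := Real.mul_self_sqrt (by positivity)
  let P := pt F e Q α β
  have hself : ∀ p, inner ℝ (P p) (P p) = 1 / 2 + 1 / (2 * R) := by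
    intro p
    show inner ℝ (pt F e Q α β p) (pt F e Q α β p) = _
    rw [pt_inner, chi_self, hcVR, hα, if_pos rfl, hβ]
    field_simp
  have hpair : ∀ p p', p ≠ p' → inner ℝ (P p) (P p') = 1 / (2 * R) ∨
      inner ℝ (P p) (P p') = - (1 / (2 * R)) := by
    rintro ⟨a, w⟩ ⟨b, w'⟩ hne
    by_cases hab : a = b
    · subst hab
      have hw : w ≠ w' := fun h => hne (by rw [h])
      left
      show inner ℝ (pt F e Q α β (a, w)) (pt F e Q α β (a, w')) = _
      rw [pt_inner, chi_same F Q a w w' hw, mul_zero, zero_add, if_pos rfl, hβ]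
    · have h1 := chi_diff F hfin Q hQ a b hab w w'
      rw [hcVR, ← pow_two] at h1
      have h2 : inner ℝ (P (a, w)) (P (b, w')) =
          (α * α) * (∑ z, chi F Q (a, w) z * chi F Q (b, w') z) := by
        show inner ℝ (pt F e Q α β (a, w)) (pt F e Q α β (b, w')) = _
        rw [pt_inner, if_neg hab, add_zero]
      rcases sq_eq_sq_iff_eq_or_eq_neg.mp h1 with h | h
      · left
        rw [h2, h, hα]
        field_simp
      · right
        rw [h2, h, hα]
        field_simp
  obtain ⟨hinj, hge, hT⟩ := family_bound P R hR hself hpair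
  refine ⟨Finset.univ.map ⟨P, hinj⟩, ?_, ?_, ?_⟩
  · rw [Finset.card_map, Finset.card_univ, Fintype.card_prod, hcV, hcard]
    ring
  · intro x hx y hy hxy
    rw [Finset.mem_map] at hx hy
    obtain ⟨p, _, rfl⟩ := hx
    obtain ⟨p', _, rfl⟩ := hy
    exact hge p p' (fun h => hxy (by rw [h]))
  · intro T hTS hTd
    -- pull back
    let T' : Finset (F × (F × ZMod 2)) := Finset.univ.filter fun p => P p ∈ T
    have hT' : T = T'.map ⟨P, hinj⟩ := by
      ext x
      simp only [T', Finset.mem_map, Finset.mem_filter, Finset.mem_univ, true_and,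
        Function.Embedding.coeFn_mk]
      constructor
      · intro hx
        have := hTS hx
        rw [Finset.mem_map] at this
        obtain ⟨p, _, rfl⟩ := this
        exact ⟨p, hx, rfl⟩
      · rintro ⟨p, hp, rfl⟩
        exact hp
    have hc : T.card = T'.card := by
      rw [hT', Finset.card_map]
    rw [hc]
    refine hT T' fun p hp p' hp' hne => ?_
    simp only [T', Finset.mem_filter, Finset.mem_univ, true_and] at hp hp'
    exact hTd _ hp _ hp' (fun h => hne (hinj h))

end Pool.Agent.H799K
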